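import Pool.Agent.U856.BM.Stm2

/-!
# Project BM, package KE: an abstract Keane lemma
-/

set_option autoImplicit false

namespace Pool.Agent.U978.BM.KE

open Set Filter Topology Relation
open Pool.Agent.U856.BM

/-- an infinite orbit of distinct points with neighbourhoods from the right in `N` is impossible -/
lemma core {ι κ : Type} [Finite ι] [Finite κ] (y : ℕ → ι × ℝ) (src : κ → ι) (hi : κ → ℝ)
    (l r : ι → ℝ) (N : Set (ι × ℝ)) (hinj : Function.Injective y) (hyN : ∀ k, y k ∉ N)
    (hl : ∀ k, l (y k).1 < (y k).2 ∧ (y k).2 < r (y k).1)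
    (p : ℕ → κ) (hsrc : ∀ k, (y k).1 = src (p k)) (hhi : ∀ k, (y k).2 < hi (p k))
    (hstep : ∀ k u, (y k).2 < u → u < hi (p k) → ((y k).1, u) ∈ N →
      ((y (k + 1)).1, (y (k + 1)).2 + (u - (y k).2)) ∈ N)
    (ε : ℝ) (hε : 0 < ε) (h0 : ∀ u, (y 0).2 < u → u < (y 0).2 + ε → ((y 0).1, u) ∈ N) : False := by
  -- the lengths
  obtain ⟨ρ, hρ0, hρs⟩ : ∃ ρ : ℕ → ℝ, ρ 0 = ε ∧ ∀ k, ρ (k + 1) = min (ρ k) (hi (p k) - (y k).2) :=
    ⟨fun k => Nat.rec ε (fun k x => min x (hi (p k) - (y k).2)) k, rfl, fun k => rfl⟩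
  have hpos : ∀ k, 0 < ρ k := by
    intro k
    induction k with
    | zero => rw [hρ0]; exact hε
    | succ k ih =>
      rw [hρs]
      exact lt_min ih (by linarith [hhi k])
  have hG : ∀ k u, (y k).2 < u → u < (y k).2 + ρ k → ((y k).1, u) ∈ N := by
    intro k
    induction k with
    | zero => rw [hρ0]; exact h0
    | succ k ih =>
      intro u hu1 hu2
      rw [hρs] at hu2
      have h1 : u - (y (k + 1)).2 < ρ k := by
        have := min_le_left (ρ k) (hi (p k) - (y k).2)
        linarith
      have h2 : u - (y (k + 1)).2 < hi (p k) - (y k).2 := by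
        have := min_le_right (ρ k) (hi (p k) - (y k).2)
        linarith
      have h3 := ih ((y k).2 + (u - (y (k + 1)).2)) (by linarith) (by linarith)
      have h4 := hstep k ((y k).2 + (u - (y (k + 1)).2)) (by linarith) (by linarith) h3
      have h5 : (y (k + 1)).2 + ((y k).2 + (u - (y (k + 1)).2) - (y k).2) = u := by ring
      rw [h5] at h4
      exact h4
  have hanti : Antitone ρ := by
    apply antitone_nat_of_succ_le
    intro k
    rw [hρs]
    exact min_le_left _ _
  -- two points of the orbit on the same line are far from each other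
  have hfar : ∀ j k, (y j).1 = (y k).1 → (y j).2 < (y k).2 → (y j).2 + ρ j ≤ (y k).2 := by
    intro j k h1 h2
    by_contra h3
    push Not at h3
    have h4 := hG j (y k).2 h2 h3
    rw [h1] at h4
    exact hyN k h4
  have hne : ∀ j k, j ≠ k → (y j).1 = (y k).1 → (y j).2 ≠ (y k).2 := by
    intro j k hjk h1 h2
    exact hjk (hinj (Prod.ext h1 h2))
  -- finitely many drops
  have hdrop : {k | ρ (k + 1) < ρ k}.Finite := by
    have hinj' : Set.InjOn p {k | ρ (k + 1) < ρ k} := by
      have key : ∀ j k, ρ (j + 1) < ρ j → p j = p k → (y j).2 < (y k).2 → False := by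
        intro j k hj hjk hlt
        have h1 : (y j).1 = (y k).1 := by rw [hsrc, hsrc, hjk]
        have h2 := hfar j k h1 hlt
        have h3 : hi (p j) - (y j).2 < ρ j := by
          rw [hρs] at hj
          rcases min_lt_iff.1 hj with h | h
          · exact absurd h (lt_irrefl _)
          · exact h
        have h4 := hhi k
        rw [← hjk] at h4
        linarith
      intro j hj k hk hjk
      by_contra hne'
      have h1 : (y j).1 = (y k).1 := by rw [hsrc, hsrc, hjk]
      rcases lt_or_gt_of_ne (hne j k hne' h1) with h | h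
      · exact key j k hj hjk h
      · exact key k j hk hjk.symm h
    exact Set.Finite.of_finite_image (Set.toFinite _) hinj'
  obtain ⟨K, hK⟩ : ∃ K, ∀ k, K ≤ k → ρ (k + 1) = ρ k := by
    obtain ⟨K, hK⟩ := hdrop.bddAbove
    refine ⟨K + 1, fun k hk => ?_⟩
    by_contra hne'
    have h1 : ρ (k + 1) < ρ k := lt_of_le_of_ne (hanti (Nat.le_succ k)) hne'
    have h2 := hK h1
    omega
  have hconst : ∀ j, ρ (K + j) = ρ K := by
    intro j
    induction j with
    | zero => rfl
    | succ j ih => rw [← add_assoc, hK (K + j) (by omega), ih]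
  have hρK := hpos K
  -- pigeonhole
  have hfin : ∀ i : ι, {k | (y (K + k)).1 = i}.Finite := by
    intro i
    have hinj2 : Set.InjOn (fun k => ⌊((y (K + k)).2 - l i) / ρ K⌋) {k | (y (K + k)).1 = i} := by
      have key : ∀ j k, (y (K + j)).1 = (y (K + k)).1 → (y (K + j)).2 < (y (K + k)).2 →
          ⌊((y (K + j)).2 - l i) / ρ K⌋ = ⌊((y (K + k)).2 - l i) / ρ K⌋ → False := by
        intro j k h1 h2 h3
        have h4 := hfar (K + j) (K + k) h1 h2
        rw [hconst] at h4
        have h5 : ((y (K + j)).2 - l i) / ρ K + 1 ≤ ((y (K + k)).2 - l i) / ρ K := by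
          rw [div_add_one hρK.ne', div_le_div_iff_of_pos_right hρK]
          linarith
        have h6 := Int.floor_le_floor h5
        rw [Int.floor_add_one] at h6
        omega
      intro j hj k hk hjk
      by_contra hne'
      have h1 : (y (K + j)).1 = (y (K + k)).1 := by
        rw [show (y (K + j)).1 = i from hj, show (y (K + k)).1 = i from hk]
      rcases lt_or_gt_of_ne (hne (K + j) (K + k) (by omega) h1) with h | h
      · exact key j k h1 h hjk
      · exact key k j h1.symm h hjk.symm
    refine Set.Finite.of_finite_image (Set.Finite.subset (Set.finite_Icc (0 : ℤ)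
      ⌊(r i - l i) / ρ K⌋) ?_) hinj2
    rintro _ ⟨k, hk, rfl⟩
    have h1 := hl (K + k)
    rw [show (y (K + k)).1 = i from hk] at h1
    constructor
    · apply Int.floor_nonneg.2
      apply div_nonneg _ hρK.le
      linarith [h1.1]
    · apply Int.floor_le_floor
      apply div_le_div_of_nonneg_right _ hρK.le
      linarith [h1.2]
  have huniv : (Set.univ : Set ℕ) = ⋃ i : ι, {k | (y (K + k)).1 = i} := by
    ext k
    simp
  have : (Set.univ : Set ℕ).Finite := by
    rw [huniv]
    exact Set.finite_iUnion hfin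
  exact Set.infinite_univ this

/-- forward orbits, neighbourhoods from the right -/
lemma fr (ι κ : Type) [Finite ι] [Finite κ] (R : ι × ℝ → ι × ℝ → Prop) (src tgt : κ → ι)
    (lo hi c : κ → ℝ) (l r : ι → ℝ)
    (hR : ∀ z z', R z z' ↔ ∃ k, z.1 = src k ∧ lo k < z.2 ∧ z.2 < hi k ∧ z' = (tgt k, z.2 + c k))
    (hinj : ∀ z z' z'', R z' z → R z'' z → z' = z'')
    (hpc : ∀ k, lo k < hi k → l (tgt k) ≤ lo k + c k ∧ hi k + c k ≤ r (tgt k))
    (N : Set (ι × ℝ)) (hN : ∀ z z', R z z' → (z ∈ N ↔ z' ∈ N)) (y : ι × ℝ) (hy1 : l y.1 < y.2)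
    (hy2 : y.2 < r y.1) (hy : y ∉ N)
    (hnb : ∃ ε : ℝ, 0 < ε ∧ ∀ u, y.2 < u → u < y.2 + ε → (y.1, u) ∈ N) :
    (∃ z, ReflTransGen R y z ∧ ¬ ∃ z', R z z') ∨ TransGen R y y := by
  by_contra hcon
  push Not at hcon
  obtain ⟨hinf, hper⟩ := hcon
  -- the orbit
  have hex : ∀ z : {z // ReflTransGen R y z}, ∃ z' : {z // ReflTransGen R y z}, R z.1 z'.1 := by
    rintro ⟨z, hz⟩
    obtain ⟨z', hz'⟩ := hinf z hz
    exact ⟨⟨z', hz.tail hz'⟩, hz'⟩
  choose F hF using hex
  obtain ⟨Y, hY0, hYs⟩ : ∃ Y : ℕ → {z // ReflTransGen R y z}, (Y 0).1 = y ∧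
      ∀ k, Y (k + 1) = F (Y k) :=
    ⟨fun k => Nat.rec ⟨y, ReflTransGen.refl⟩ (fun _ z => F z) k, rfl, fun k => rfl⟩
  have hRY : ∀ k, R (Y k).1 (Y (k + 1)).1 := by
    intro k
    rw [hYs]
    exact hF _
  have hdet : ∀ m k, (Y k).1 = (Y (k + (m + 1))).1 → False := by
    intro m k
    induction k with
    | zero =>
      intro h
      apply hper
      have h1 : ∀ j, TransGen R (Y 0).1 (Y (0 + (j + 1))).1 := by
        intro j
        induction j with
        | zero => exact TransGen.single (hRY 0)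
        | succ j ih => exact ih.tail (hRY (0 + (j + 1)))
      have h2 := h1 m
      rw [← h, hY0] at h2
      exact h2
    | succ k ih =>
      intro h
      apply ih
      have h1 := hRY k
      have h2 := hRY (k + (m + 1))
      rw [show k + (m + 1) + 1 = k + 1 + (m + 1) by ring, ← h] at h2
      exact hinj _ _ _ h1 h2
  have hYinj : Function.Injective (fun k => (Y k).1) := by
    intro j k hjk
    by_contra hne
    rcases lt_or_gt_of_ne hne with h | h
    · obtain ⟨m, rfl⟩ := Nat.exists_eq_add_of_lt h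
      exact hdet m j hjk
    · obtain ⟨m, rfl⟩ := Nat.exists_eq_add_of_lt h
      exact hdet m k hjk.symm
  have hYN : ∀ k, (Y k).1 ∉ N := by
    intro k
    induction k with
    | zero => rw [hY0]; exact hy
    | succ k ih => exact fun h => ih ((hN _ _ (hRY k)).2 h)
  have hpk : ∀ k, ∃ p, (Y k).1.1 = src p ∧ lo p < (Y k).1.2 ∧ (Y k).1.2 < hi p ∧
      (Y (k + 1)).1 = (tgt p, (Y k).1.2 + c p) := fun k => (hR _ _).1 (hRY k)
  choose p hp using hpk
  have hYl : ∀ k, l (Y k).1.1 < (Y k).1.2 ∧ (Y k).1.2 < r (Y k).1.1 := by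
    intro k
    cases k with
    | zero => rw [hY0]; exact ⟨hy1, hy2⟩
    | succ k =>
      obtain ⟨h1, h2, h3, h4⟩ := hp k
      have h5 := hpc (p k) (h2.trans h3)
      rw [h4]
      exact ⟨by simp only; linarith [h5.1], by simp only; linarith [h5.2]⟩
  obtain ⟨ε, hε, hnb⟩ := hnb
  refine core (fun k => (Y k).1) src hi l r N hYinj hYN hYl p (fun k => (hp k).1)
    (fun k => (hp k).2.2.1) ?_ ε hε ?_
  · intro k u hu1 hu2 hu3
    obtain ⟨h1, h2, h3, h4⟩ := hp k
    have h5 : R ((Y k).1.1, u) (tgt (p k), u + c (p k)) :=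
      (hR _ _).2 ⟨p k, h1, by simp only at hu1 ⊢; linarith, hu2, rfl⟩
    have h6 := (hN _ _ h5).1 hu3
    rw [h4]
    simp only
    rw [show (Y k).1.2 + c (p k) + (u - (Y k).1.2) = u + c (p k) by ring]
    exact h6
  · intro u hu1 hu2
    simp only [hY0] at hu1 hu2 ⊢
    exact hnb u hu1 hu2

/-- forward orbits, neighbourhoods from one side -/
lemma fw (ι κ : Type) [Finite ι] [Finite κ] (R : ι × ℝ → ι × ℝ → Prop) (src tgt : κ → ι)
    (lo hi c : κ → ℝ) (l r : ι → ℝ)
    (hR : ∀ z z', R z z' ↔ ∃ k, z.1 = src k ∧ lo k < z.2 ∧ z.2 < hi k ∧ z' = (tgt k, z.2 + c k))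
    (hinj : ∀ z z' z'', R z' z → R z'' z → z' = z'')
    (hpc : ∀ k, lo k < hi k → l (tgt k) ≤ lo k + c k ∧ hi k + c k ≤ r (tgt k))
    (N : Set (ι × ℝ)) (hN : ∀ z z', R z z' → (z ∈ N ↔ z' ∈ N)) (y : ι × ℝ) (hy1 : l y.1 < y.2)
    (hy2 : y.2 < r y.1) (hy : y ∉ N)
    (hnb : ∃ ε : ℝ, 0 < ε ∧ ((∀ u, y.2 < u → u < y.2 + ε → (y.1, u) ∈ N) ∨
      ∀ u, y.2 - ε < u → u < y.2 → (y.1, u) ∈ N)) :
    (∃ z, ReflTransGen R y z ∧ ¬ ∃ z', R z z') ∨ TransGen R y y := by
  obtain ⟨ε, hε, h | h⟩ := hnb
  · exact fr ι κ R src tgt lo hi c l r hR hinj hpc N hN y hy1 hy2 hy ⟨ε, hε, h⟩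
  · -- reflection
    let f : ι × ℝ → ι × ℝ := fun z => (z.1, -z.2)
    have hff : ∀ z, f (f z) = z := fun z => by simp [f]
    have key := fr ι κ (fun z z' => R (f z) (f z')) src tgt (fun k => -hi k) (fun k => -lo k)
      (fun k => -c k) (fun i => -r i) (fun i => -l i)
      (by
        intro z z'
        rw [hR]
        constructor
        · rintro ⟨k, h1, h2, h3, h4⟩
          refine ⟨k, h1, ?_, ?_, ?_⟩
          · simp only [f] at h3; linarith
          · simp only [f] at h2; linarith
          · rw [← hff z', h4]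
            simp only [f]
            rw [Prod.mk.injEq]
            exact ⟨rfl, by ring⟩
        · rintro ⟨k, h1, h2, h3, h4⟩
          refine ⟨k, h1, ?_, ?_, ?_⟩
          · simp only [f]; linarith
          · simp only [f]; linarith
          · rw [h4]
            simp only [f]
            rw [Prod.mk.injEq]
            exact ⟨rfl, by ring⟩)
      (by
        intro z z' z'' h1 h2
        have h3 := hinj _ _ _ h1 h2
        rw [← hff z', ← hff z'', h3])
      (by
        intro k hk
        have h1 := hpc k (by linarith)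
        constructor
        · linarith [h1.2]
        · linarith [h1.1])
      {z | f z ∈ N}
      (by
        intro z z' hz
        exact hN _ _ hz)
      (f y) (by simp only [f]; linarith) (by simp only [f]; linarith)
      (by
        show f (f y) ∉ N
        rw [hff]
        exact hy)
      ⟨ε, hε, by
        intro u hu1 hu2
        simp only [f] at hu1 hu2 ⊢
        exact h (-u) (by linarith) (by linarith)⟩
    rcases key with ⟨z, hz1, hz2⟩ | hz
    · left
      refine ⟨f z, ?_, ?_⟩
      · have h1 : ReflTransGen R (f (f y)) (f z) :=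
          ReflTransGen.lift (p := R) f (fun a b hab => hab) _ _ hz1
        rw [hff] at h1
        exact h1
      · rintro ⟨z', hz'⟩
        exact hz2 ⟨f z', by rw [hff]; exact hz'⟩
    · right
      have h1 : TransGen R (f (f y)) (f (f y)) :=
        TransGen.lift (p := R) f (fun a b hab => hab) _ _ hz
      rw [hff] at h1
      exact h1

theorem t_KE : S_KE := by
  intro ι κ _ _ R src tgt lo hi c l r hR hdet hinj hpc _ _ N _ _ hN y hy1 hy2 hy hnb
  constructor
  · exact fw ι κ R src tgt lo hi c l r hR hinj (fun k hk => (hpc k hk).2.2) N hN y hy1 hy2 hy hnb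
  · have key := fw ι κ (fun z z' => R z' z) tgt src (fun k => lo k + c k) (fun k => hi k + c k)
      (fun k => -c k) l r
      (by
        intro z z'
        rw [hR]
        constructor
        · rintro ⟨k, h1, h2, h3, h4⟩
          refine ⟨k, by rw [h4], by rw [h4]; simp only; linarith, by rw [h4]; simp only; linarith,
            ?_⟩
          rw [h4]
          simp only
          apply Prod.ext
          · exact h1
          · simp only; ring
        · rintro ⟨k, h1, h2, h3, h4⟩
          refine ⟨k, by rw [h4], by rw [h4]; simp only; linarith, by rw [h4]; simp only; linarith,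
            ?_⟩
          rw [h4]
          simp only
          apply Prod.ext
          · exact h1
          · simp only; ring)
      (fun z z' z'' h1 h2 => hdet z z' z'' h1 h2)
      (by
        intro k hk
        have h1 := hpc k (by linarith)
        constructor
        · linarith [h1.1]
        · linarith [h1.2.1])
      N (fun z z' hz => (hN _ _ hz).symm) y hy1 hy2 hy hnb
    rcases key with ⟨z, hz1, hz2⟩ | hz
    · left
      refine ⟨z, ?_, hz2⟩
      exact reflTransGen_swap.1 hz1
    · right
      exact transGen_swap.1 hz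

end Pool.Agent.U978.BM.KE
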